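import Pool.Agent.X5.FE.Gen

/-!
# MP_778b46_nt: even numbers whose representations of all types have only large indices

For all large `X` there is an even `2 n` in `(X, 2 X]` such that in every representation of `2 n` as the sum
of the `x`-th `a`-prime and the `y`-th `b`-prime, for all types `(a, b)` at the same time, one has
`x > c log X log log X / 2 ^ a` and `y > c log X log log X / 2 ^ b`.
-/

set_option autoImplicit false
set_option maxHeartbeats 4000000

namespace Pool.Agent.Results.MP_778b46_nt.FirstIndicesAllTypes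

/-- the `x`-th `i`-prime, for `x ≥ 1`: the `(i + 1)`-fold iterate of `k ↦ p_k` at `x` -/
noncomputable def iPrime (i x : ℕ) : ℕ := (fun k : ℕ => Nat.nth Nat.Prime (k - 1))^[i + 1] x

lemma iPrime_prime (i x : ℕ) : (iPrime i x).Prime := by
  unfold iPrime
  rw [Function.iterate_succ_apply']
  exact Nat.prime_nth_prime _

/-- **All representations of all types have large indices.** -/
theorem result : ∃ c : ℝ, 0 < c ∧ ∃ X₀ : ℝ, ∀ X : ℝ, X₀ ≤ X →
    ∃ n : ℕ, X < 2 * n ∧ (2 * n : ℝ) ≤ 2 * X ∧
      ∀ a b x y : ℕ, 0 < x → 0 < y → iPrime a x + iPrime b y = 2 * n →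
        c * (Real.log X * Real.log (Real.log X)) / 2 ^ a < x ∧
        c * (Real.log X * Real.log (Real.log X)) / 2 ^ b < y := by
  obtain ⟨c, hc, X₀, h⟩ := Pool.Agent.X5.FE.avoid_seqs 2 (by norm_num) 0
  refine ⟨c, hc, X₀, fun X hX => ?_⟩
  obtain ⟨N, hN1, hN2, hN3, hN4⟩ := h X hX iPrime
  have h2 := hN3 2 Nat.prime_two (dvd_refl 2)
  have hNn : N = 2 * (N / 2) := by omega
  have hNR : (N : ℝ) = 2 * ((N / 2 : ℕ) : ℝ) := by exact_mod_cast hNn
  refine ⟨N / 2, by linarith, by linarith, ?_⟩
  intro a b x y hx hy hxy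
  refine ⟨?_, ?_⟩
  · exact hN4 a x (iPrime b y) hx (iPrime_prime b y) (by omega)
  · exact hN4 b y (iPrime a x) hy (iPrime_prime a x) (by omega)

end Pool.Agent.Results.MP_778b46_nt.FirstIndicesAllTypes
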