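import Pool.Agent.X62.MP.GP

/-!
# MP_778b46_nt: `(a, b)`-representable even numbers in progressions modulo a prime, with generic difference

For all types `(a, b)`, every prime `q` and every length `L ≤ q`, all but at most `C q (log q) ^ ((a + b + 2) / 2) / L`
of the differences `v` modulo `q` have the following property: EVERY progression `x, x + v, ..., x + (L - 1) v`
modulo `q` contains the residue of an `(a, b)`-representable even number which is less than `q`.
-/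

set_option autoImplicit false

namespace Pool.Agent.Results.MP_778b46_nt.GenericProgressions

open Finset Filter
open Pool.Agent.H197R2.PG (PI)
open Pool.Agent.TH665.GP (PI_prime)

/-- the `x`-th `i`-prime, for `x ≥ 1`: the `(i + 1)`-fold iterate of `k ↦ p_k` at `x` -/
noncomputable def iPrime (i x : ℕ) : ℕ := (fun k : ℕ => Nat.nth Nat.Prime (k - 1))^[i + 1] x

/-- `m` is `(a, b)`-representable. -/
def Rep (a b m : ℕ) : Prop :=
  ∃ x y : ℕ, 0 < x ∧ 0 < y ∧ iPrime a x ≠ iPrime b y ∧ iPrime a x + iPrime b y = m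

/-- Every progression `x, x + v, ..., x + (L - 1) v` contains a number congruent modulo `q` to an
`(a, b)`-representable even number less than `q`. -/
def Meets (a b L q v : ℕ) : Prop :=
  ∀ x : ℕ, ∃ r : ℕ, r < L ∧ ∃ n : ℕ, 2 * n < q ∧ Rep a b (2 * n) ∧ 2 * n ≡ x + r * v [MOD q]

lemma rep_of {a b p p' m : ℕ} (hp : PI a p) (hp' : PI b p') (h : p + p' = m) (hne : p ≠ p') : Rep a b m := by
  obtain ⟨u, v, hu, hv, h1, h2⟩ := Pool.Agent.Y886.UT.rep_of hp hp' h hne
  exact ⟨u, v, hu, hv, h2, h1⟩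

/-- many `a`-primes -/
lemma dens_fixed (a : ℕ) : ∃ κ : ℝ, 0 < κ ∧ ∃ y0 : ℕ, ∀ y : ℕ, y0 ≤ y → ∃ S : Finset ℕ,
    S ⊆ Icc 1 y ∧ (∀ p ∈ S, PI a p) ∧ 4 ≤ S.card ∧ κ * y ≤ S.card * Real.log y ^ (a + 1) := by
  obtain ⟨c, hc, hc4, hd⟩ := Pool.Agent.Y886.UT.dens
  have hca : 0 < c ^ (a + 1) := by positivity
  refine ⟨c ^ (a + 1) / 2, by positivity, ?_⟩
  have h1 := (Real.isLittleO_pow_log_id_atTop (n := a + 1)).bound
    (by positivity : (0 : ℝ) < c ^ (a + 1) / 5)
  have h2 : ∀ᶠ y : ℕ in atTop, ‖Real.log (y : ℝ) ^ (a + 1)‖ ≤ c ^ (a + 1) / 5 * ‖id (y : ℝ)‖ :=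
    tendsto_natCast_atTop_atTop.eventually h1
  obtain ⟨y0, hy0⟩ := eventually_atTop.1 (h2.and (eventually_ge_atTop 3))
  refine ⟨y0, fun y hy => ?_⟩
  obtain ⟨h3, hy3⟩ := hy0 y hy
  obtain ⟨S, hS1, hS2, hS3⟩ := hd a y (by omega)
  have hyr : (3 : ℝ) ≤ y := by exact_mod_cast hy3
  have hl : 0 < Real.log y := Real.log_pos (by linarith)
  have hlp : 0 < Real.log y ^ (a + 1) := by positivity
  rw [Real.norm_of_nonneg hlp.le, id, Real.norm_of_nonneg (by linarith)] at h3
  have h5 : 5 * Real.log y ^ (a + 1) ≤ ((S.card : ℝ) + 1) * Real.log y ^ (a + 1) := by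
    refine le_trans ?_ hS3
    linarith
  have h6 : (5 : ℝ) ≤ (S.card : ℝ) + 1 := le_of_mul_le_mul_right h5 hlp
  have h7 : (4 : ℝ) ≤ S.card := by linarith
  refine ⟨S, hS1, hS2, by exact_mod_cast h7, ?_⟩
  have h8 : ((S.card : ℝ) + 1) * Real.log y ^ (a + 1) ≤ (2 * S.card) * Real.log y ^ (a + 1) :=
    mul_le_mul_of_nonneg_right (by linarith) hlp.le
  linarith

/-- the differences `2 j` with `2 j L < q` are exceptional -/
lemma lower (a b q L : ℕ) (hL : 1 ≤ L) :
    (q - 1) / (2 * L) ≤ {v : ℕ | 0 < v ∧ v < q ∧ ¬ Meets a b L q v}.ncard := by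
  have hfin : {v : ℕ | 0 < v ∧ v < q ∧ ¬ Meets a b L q v}.Finite :=
    (Set.finite_lt_nat q).subset fun v hv => hv.2.1
  set K := (q - 1) / (2 * L) with hK
  have hsub : ((fun j : ℕ => 2 * j) '' (Set.Icc 1 K)) ⊆ {v : ℕ | 0 < v ∧ v < q ∧ ¬ Meets a b L q v} := by
    rintro v ⟨j, hj, rfl⟩
    obtain ⟨hj1, hj2⟩ := Set.mem_Icc.1 hj
    have h1 : K * (2 * L) ≤ q - 1 := Nat.div_mul_le_self _ _
    have h2 : j * (2 * L) ≤ K * (2 * L) := Nat.mul_le_mul_right _ hj2
    have h3 : j * (2 * L) = 2 * (j * L) := by ring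
    have h4 : j ≤ j * L := Nat.le_mul_of_pos_right _ hL
    have h5 : 2 * (j * L) ≤ q - 1 := by omega
    refine ⟨by simp only; omega, by simp only; omega, fun hM => ?_⟩
    obtain ⟨r, hr, n, hn, -, hmod⟩ := hM 1
    have h6 : r * (2 * j) = 2 * (j * r) := by ring
    have h7 : j * (r + 1) ≤ j * L := Nat.mul_le_mul_left _ hr
    have h8 : j * (r + 1) = j * r + j := by ring
    have h9 : 1 + r * (2 * j) < q := by omega
    have h10 : 2 * n = 1 + r * (2 * j) := by
      have h11 : 2 * n % q = (1 + r * (2 * j)) % q := hmod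
      rwa [Nat.mod_eq_of_lt hn, Nat.mod_eq_of_lt h9] at h11
    omega
  have h1 := Set.ncard_le_ncard hsub hfin
  rw [Set.ncard_image_of_injective _ (fun x y h => by have h' : 2 * x = 2 * y := h; omega)] at h1
  have h2 : (Set.Icc 1 K).ncard = K := by
    rw [← Finset.coe_Icc, Set.ncard_coe_finset, Nat.card_Icc, Nat.add_sub_cancel]
  rwa [h2] at h1

theorem upper (a b : ℕ) : ∃ C : ℝ, 0 < C ∧ ∀ q : ℕ, q.Prime → ∀ L : ℕ, 1 ≤ L → L ≤ q →
    (({v : ℕ | 0 < v ∧ v < q ∧ ¬ Meets a b L q v}.ncard : ℕ) : ℝ) ≤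
      C * q * Real.log q ^ (((a : ℝ) + b + 2) / 2) / L := by
  obtain ⟨κ, hκ, y0, hA⟩ := dens_fixed a
  obtain ⟨κ', hκ', y1, hB⟩ := dens_fixed b
  set q0 : ℕ := 2 * (y0 + y1) + 4 with hq0
  set e : ℝ := ((a : ℝ) + b + 2) / 2 with he
  have he0 : 0 ≤ e := by positivity
  have hlog2 : 0 < Real.log 2 := Real.log_pos (by norm_num)
  refine ⟨32 / Real.sqrt (κ * κ') + q0 / Real.log 2 ^ e, by positivity, fun q hq L hL hLq => ?_⟩
  have hq2 : 2 ≤ q := hq.two_le
  have hqr : (2 : ℝ) ≤ q := by exact_mod_cast hq2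
  have hqr0 : (0 : ℝ) < q := by linarith
  have hlq : Real.log 2 ≤ Real.log q := Real.log_le_log (by norm_num) hqr
  have hlq0 : 0 < Real.log q := by linarith
  have hL0 : (0 : ℝ) < L := by exact_mod_cast (by omega : 0 < L)
  have hLqr : (L : ℝ) ≤ q := by exact_mod_cast hLq
  have hfin : {v : ℕ | 0 < v ∧ v < q ∧ ¬ Meets a b L q v}.Finite :=
    (Set.finite_lt_nat q).subset fun v hv => hv.2.1
  rw [Set.ncard_eq_toFinset_card _ hfin]
  set V := hfin.toFinset with hV
  have hVm : ∀ v ∈ V, 0 < v ∧ v < q ∧ ¬ Meets a b L q v := fun v hv => hfin.mem_toFinset.1 hv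
  have hVq : (V.card : ℝ) ≤ q := by
    have h1 : V.card ≤ (range q).card := card_le_card fun v hv => mem_range.2 (hVm v hv).2.1
    rw [card_range] at h1
    exact_mod_cast h1
  have hpow0 : 0 < Real.log q ^ e := Real.rpow_pos_of_pos hlq0 _
  have hpow2 : 0 < Real.log 2 ^ e := Real.rpow_pos_of_pos hlog2 _
  have hpow : Real.log 2 ^ e ≤ Real.log q ^ e := Real.rpow_le_rpow hlog2.le hlq he0
  have hs0 : 0 < Real.sqrt (κ * κ') := Real.sqrt_pos.2 (by positivity)
  rw [le_div_iff₀ hL0]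
  rcases lt_or_ge q q0 with hqs | hqb
  · have hqs' : (q : ℝ) ≤ q0 := by exact_mod_cast hqs.le
    have h1 : (q0 : ℝ) ≤ q0 / Real.log 2 ^ e * Real.log q ^ e := by
      rw [div_mul_eq_mul_div, le_div_iff₀ hpow2]
      exact mul_le_mul_of_nonneg_left hpow (Nat.cast_nonneg _)
    calc (V.card : ℝ) * L ≤ q * q := mul_le_mul hVq hLqr hL0.le hqr0.le
      _ ≤ q * q0 := by gcongr
      _ ≤ q * (q0 / Real.log 2 ^ e * Real.log q ^ e) := by gcongr
      _ = q0 / Real.log 2 ^ e * (q * Real.log q ^ e) := by ring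
      _ ≤ (32 / Real.sqrt (κ * κ') + q0 / Real.log 2 ^ e) * (q * Real.log q ^ e) := by
          apply mul_le_mul_of_nonneg_right _ (by positivity)
          have : 0 < 32 / Real.sqrt (κ * κ') := by positivity
          linarith
      _ = _ := by ring
  · set y : ℕ := (q - 1) / 2 with hy
    obtain ⟨S, hS1, hS2, hS3, hS4⟩ := hA y (by omega)
    obtain ⟨T, hT1, hT2, hT3, hT4⟩ := hB y (by omega)
    have hyq : (q : ℝ) / 4 ≤ y := by
      have h1 : q ≤ 4 * y := by omega
      have h2 : (q : ℝ) ≤ 4 * y := by exact_mod_cast h1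
      linarith
    have hy1 : (1 : ℝ) ≤ y := by exact_mod_cast (by omega : 1 ≤ y)
    have hyq' : (y : ℝ) ≤ q := by exact_mod_cast (by omega : y ≤ q)
    have hly : Real.log y ≤ Real.log q := Real.log_le_log (by linarith) hyq'
    have hly0 : 0 ≤ Real.log y := Real.log_nonneg hy1
    have key := Pool.Agent.X62.MP.odd_sums q hq S T
      (fun p hp => ⟨PI_prime (hS2 p hp), by have := (mem_Icc.1 (hS1 hp)).2; omega⟩)
      (fun p hp => ⟨PI_prime (hT2 p hp), by have := (mem_Icc.1 (hT1 hp)).2; omega⟩) hS3 hT3 L hL hLq V (by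
        intro v hv
        obtain ⟨hv0, hvq, hbad⟩ := hVm v hv
        unfold Meets at hbad
        push Not at hbad
        obtain ⟨x, hx⟩ := hbad
        refine ⟨hv0, hvq, x, fun r hr p hp p' hp' n hne hsum => ?_⟩
        have h1 := (mem_Icc.1 (hS1 hp)).2
        have h2 := (mem_Icc.1 (hT1 hp')).2
        exact hx r hr n (by omega) (rep_of (hS2 p hp) (hT2 p' hp') hsum hne))
    -- the lower bound of the geometric mean
    have h1 : κ * (q / 4) ≤ S.card * Real.log q ^ (a + 1) := by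
      calc κ * (q / 4) ≤ κ * y := by gcongr
        _ ≤ S.card * Real.log y ^ (a + 1) := hS4
        _ ≤ _ := by gcongr
    have h2 : κ' * (q / 4) ≤ T.card * Real.log q ^ (b + 1) := by
      calc κ' * (q / 4) ≤ κ' * y := by gcongr
        _ ≤ T.card * Real.log y ^ (b + 1) := hT4
        _ ≤ _ := by gcongr
    have h3 : (κ * κ') * (q / 4) ^ 2 ≤ (S.card * T.card) * (Real.log q ^ e) ^ 2 := by
      have e1 : (Real.log q ^ e) ^ 2 = Real.log q ^ (a + 1) * Real.log q ^ (b + 1) := by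
        rw [← Real.rpow_natCast, ← Real.rpow_mul hlq0.le, ← pow_add, ← Real.rpow_natCast]
        congr 1
        rw [he]
        push_cast
        ring
      rw [e1]
      calc (κ * κ') * ((q : ℝ) / 4) ^ 2 = (κ * (q / 4)) * (κ' * (q / 4)) := by ring
        _ ≤ (S.card * Real.log q ^ (a + 1)) * (T.card * Real.log q ^ (b + 1)) := by gcongr
        _ = _ := by ring
    have h4 : Real.sqrt (κ * κ') * (q / 4) ≤ Real.sqrt (S.card * T.card) * Real.log q ^ e := by
      have h5 := Real.sqrt_le_sqrt h3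
      rwa [Real.sqrt_mul (show (0 : ℝ) ≤ κ * κ' by positivity) (((q : ℝ) / 4) ^ 2),
        Real.sqrt_sq (show (0 : ℝ) ≤ (q : ℝ) / 4 by positivity),
        Real.sqrt_mul (show (0 : ℝ) ≤ (S.card : ℝ) * T.card by positivity) ((Real.log q ^ e) ^ 2),
        Real.sqrt_sq hpow0.le] at h5
    have h6 : (V.card : ℝ) * L * (Real.sqrt (κ * κ') * (q / 4)) ≤ 8 * (q : ℝ) ^ 2 * Real.log q ^ e := by
      calc (V.card : ℝ) * L * (Real.sqrt (κ * κ') * (q / 4))
          ≤ V.card * L * (Real.sqrt (S.card * T.card) * Real.log q ^ e) := by gcongr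
        _ = (V.card * L * Real.sqrt (S.card * T.card)) * Real.log q ^ e := by ring
        _ ≤ _ := mul_le_mul_of_nonneg_right key hpow0.le
    have h7 : (V.card : ℝ) * L ≤ 32 / Real.sqrt (κ * κ') * (q * Real.log q ^ e) := by
      have h8 : 0 < Real.sqrt (κ * κ') * (q / 4) := by positivity
      refine le_of_mul_le_mul_right (h6.trans (le_of_eq ?_)) h8
      field_simp
      ring
    calc (V.card : ℝ) * L ≤ 32 / Real.sqrt (κ * κ') * (q * Real.log q ^ e) := h7
      _ ≤ (32 / Real.sqrt (κ * κ') + q0 / Real.log 2 ^ e) * (q * Real.log q ^ e) := by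
          apply mul_le_mul_of_nonneg_right _ (by positivity)
          have : 0 ≤ q0 / Real.log 2 ^ e := by positivity
          linarith
      _ = _ := by ring

/-- **Main theorem**, an upper bound and a lower bound for the number of the exceptional differences. -/
theorem result (a b : ℕ) : ∃ C : ℝ, 0 < C ∧ ∀ q : ℕ, q.Prime → ∀ L : ℕ, 1 ≤ L → L ≤ q →
    (q - 1) / (2 * L) ≤ {v : ℕ | 0 < v ∧ v < q ∧ ¬ Meets a b L q v}.ncard ∧
    (({v : ℕ | 0 < v ∧ v < q ∧ ¬ Meets a b L q v}.ncard : ℕ) : ℝ) ≤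
      C * q * Real.log q ^ (((a : ℝ) + b + 2) / 2) / L := by
  obtain ⟨C, hC, h⟩ := upper a b
  exact ⟨C, hC, fun q hq L hL hLq => ⟨lower a b q L hL, h q hq L hL hLq⟩⟩

end Pool.Agent.Results.MP_778b46_nt.GenericProgressions
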