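import Pool.Agent.X62.MP.Dens

/-!
# MP_778b46_nt: fractional parts of the multiples of the `(a, b)`-representable even numbers

For almost all real `α` and all large `N` the fractional parts of `α m`, where `m ≤ N` runs through the
`(a, b)`-representable even numbers, leave no gap longer than `(log N) ^ ((a + b) / 2 + 2 + ε) / N`, which is
best possible up to the power of the logarithm.
-/

set_option autoImplicit false

namespace Pool.Agent.Results.MP_778b46_nt.MetricFractionalParts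

open Finset Filter MeasureTheory
open Pool.Agent.H197R2.PG (PI)
open Pool.Agent.TH665.GP (PI_prime)

/-- the `x`-th `i`-prime, for `x ≥ 1`: the `(i + 1)`-fold iterate of `k ↦ p_k` at `x` -/
noncomputable def iPrime (i x : ℕ) : ℕ := (fun k : ℕ => Nat.nth Nat.Prime (k - 1))^[i + 1] x

/-- `m` is `(a, b)`-representable. -/
def Rep (a b m : ℕ) : Prop :=
  ∃ x y : ℕ, 0 < x ∧ 0 < y ∧ iPrime a x ≠ iPrime b y ∧ iPrime a x + iPrime b y = m

/-- For some `(a, b)`-representable even number `2 n ≤ N` the distance of `α (2 n)` and `β` modulo one is at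
most `δ`. -/
def Approx (a b N : ℕ) (δ α β : ℝ) : Prop :=
  ∃ n : ℕ, 2 * n ≤ N ∧ Rep a b (2 * n) ∧ ∃ z : ℤ, |α * (2 * (n : ℝ)) - β - z| ≤ δ

lemma rep_of {a b p p' m : ℕ} (hp : PI a p) (hp' : PI b p') (h : p + p' = m) (hne : p ≠ p') : Rep a b m := by
  obtain ⟨u, v, hu, hv, h1, h2⟩ := Pool.Agent.Y886.UT.rep_of hp hp' h hne
  exact ⟨u, v, hu, hv, h2, h1⟩

/-- **Main theorem.** -/
theorem result (a b : ℕ) (ε : ℝ) (hε : 0 < ε) : ∀ᵐ α : ℝ, ∀ᶠ N : ℕ in atTop, ∀ β : ℝ,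
    Approx a b N (Real.log N ^ (((a : ℝ) + b) / 2 + 2 + ε) / N) α β := by
  classical
  obtain ⟨κ, hκ, y0, hA⟩ := Pool.Agent.X62.MP.dens_fixed a
  obtain ⟨κ', hκ', y1, hB⟩ := Pool.Agent.X62.MP.dens_fixed b
  set e : ℝ := ((a : ℝ) + b + 2) / 2 with he
  have he0 : 0 ≤ e := by positivity
  set E : ℝ := e + 1 + ε / 2 with hE
  have hE0 : 0 < E := by positivity
  -- the first range
  have hlim : ∀ᶠ l : ℕ in atTop, (l : ℝ) ^ E ≤ (2 : ℝ) ^ (l - 1) := by
    have h1 := (isLittleO_rpow_exp_pos_mul_atTop E (show (0 : ℝ) < Real.log 2 from Real.log_pos (by norm_num))).bound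
      (show (0 : ℝ) < 1 / 2 by norm_num)
    have h2 := (tendsto_natCast_atTop_atTop (R := ℝ)).eventually h1
    filter_upwards [h2, eventually_ge_atTop 1] with l hl hl1
    rw [Real.norm_of_nonneg (by positivity), Real.norm_of_nonneg (Real.exp_pos _).le, mul_comm (Real.log 2),
      mul_comm (l : ℝ), ] at hl
    have h3 : Real.exp (Real.log 2 * (l : ℝ)) = (2 : ℝ) ^ l := by
      rw [mul_comm, Real.exp_nat_mul, Real.exp_log (by norm_num)]
    rw [h3] at hl
    refine hl.trans (le_of_eq ?_)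
    obtain ⟨i, rfl⟩ : ∃ i, l = i + 1 := ⟨l - 1, by omega⟩
    rw [Nat.add_sub_cancel, pow_succ]
    ring
  obtain ⟨l0, hl0⟩ := eventually_atTop.1 hlim
  set j0 : ℕ := y0 + y1 + l0 + 2 with hj0
  -- the sets
  have hsets : ∀ j : ℕ, ∃ S T : Finset ℕ, Disjoint S T ∧ (∀ p ∈ S, p % 2 = 1 ∧ PI a p ∧ p ≤ 2 ^ (j + j0)) ∧
      (∀ p ∈ T, p % 2 = 1 ∧ PI b p ∧ p ≤ 2 ^ (j + j0)) ∧ S.Nonempty ∧ T.Nonempty ∧
      κ / 4 * 2 ^ (j + j0) ≤ S.card * ((j + j0 + 1 : ℕ) : ℝ) ^ (a + 1) ∧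
      κ' / 4 * 2 ^ (j + j0) ≤ T.card * ((j + j0 + 1 : ℕ) : ℝ) ^ (b + 1) := by
    intro j
    have hpow : j + j0 < 2 ^ (j + j0) := Nat.lt_two_pow_self
    obtain ⟨S, hS1, hS2, hS3, hS4⟩ := hA (2 ^ (j + j0)) (by omega)
    obtain ⟨T, hT1, hT2, hT3, hT4⟩ := hB (2 ^ (j + j0)) (by omega)
    obtain ⟨S', T', h1, h2, h3, h4, h5, h6, h7, h8, h9⟩ := Pool.Agent.X62.MP.odd_halves S T
      (fun p hp => PI_prime (hS2 p hp)) (fun p hp => PI_prime (hT2 p hp)) hS3 hT3
    have hlog : Real.log ((2 ^ (j + j0) : ℕ) : ℝ) ≤ ((j + j0 + 1 : ℕ) : ℝ) := by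
      push_cast
      rw [Real.log_pow]
      have h10 : Real.log 2 ≤ 1 := by
        have := Real.log_two_lt_d9
        linarith
      have h11 : (0 : ℝ) ≤ ((j + j0 : ℕ) : ℝ) := Nat.cast_nonneg _
      push_cast at h11 ⊢
      nlinarith
    have hlog0 : 0 ≤ Real.log ((2 ^ (j + j0) : ℕ) : ℝ) := Real.log_natCast_nonneg _
    refine ⟨S', T', h3, fun p hp => ⟨h4 p hp, hS2 p (h1 hp), (mem_Icc.1 (hS1 (h1 hp))).2⟩,
      fun p hp => ⟨h5 p hp, hT2 p (h2 hp), (mem_Icc.1 (hT1 (h2 hp))).2⟩, h6, h7, ?_, ?_⟩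
    · have h8' : (S.card : ℝ) ≤ 4 * S'.card := by exact_mod_cast h8
      have h10 : κ * ((2 ^ (j + j0) : ℕ) : ℝ) ≤ (4 * S'.card) * ((j + j0 + 1 : ℕ) : ℝ) ^ (a + 1) :=
        hS4.trans (by gcongr)
      push_cast at h10 ⊢
      linarith
    · have h9' : (T.card : ℝ) ≤ 4 * T'.card := by exact_mod_cast h9
      have h10 : κ' * ((2 ^ (j + j0) : ℕ) : ℝ) ≤ (4 * T'.card) * ((j + j0 + 1 : ℕ) : ℝ) ^ (b + 1) :=
        hT4.trans (by gcongr)
      push_cast at h10 ⊢
      linarith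
  choose S T hdis hS hT hSne hTne hSc hTc using hsets
  set δ : ℕ → ℝ := fun j => ((j + j0 + 1 : ℕ) : ℝ) ^ E / 2 ^ (j + j0) with hδ
  have hJ0 : ∀ j : ℕ, (0 : ℝ) < ((j + j0 + 1 : ℕ) : ℝ) := fun j => by positivity
  have hδ0 : ∀ j, 0 < δ j := fun j => by
    have := hJ0 j
    simp only [hδ]; positivity
  have hδ1 : ∀ j, δ j ≤ 1 := by
    intro j
    simp only [hδ]
    rw [div_le_one (by positivity)]
    have h1 := hl0 (j + j0 + 1) (by omega)
    rwa [Nat.add_sub_cancel] at h1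
  have hsum : Summable (fun j : ℕ => 64 / Real.sqrt (κ * κ') * (1 / ((j + j0 + 1 : ℕ) : ℝ) ^ (1 + ε / 2))) := by
    apply Summable.mul_left
    have h1 : Summable (fun n : ℕ => 1 / (n : ℝ) ^ (1 + ε / 2)) := Real.summable_one_div_nat_rpow.2 (by linarith)
    have h2 := (summable_nat_add_iff (j0 + 1)).2 h1
    simpa [add_assoc] using h2
  have hs0 : 0 < Real.sqrt (κ * κ') := Real.sqrt_pos.2 (by positivity)
  have hae := Pool.Agent.X62.MP.ae_of_dyadic S T δ hSne hTne hδ0 hδ1 _ (fun j => by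
    have := hJ0 j
    positivity) hsum (by
    intro j
    have hJ := hJ0 j
    set J : ℝ := ((j + j0 + 1 : ℕ) : ℝ) with hJdef
    have h1 : (Real.sqrt (κ * κ') / 4 * 2 ^ (j + j0)) ^ 2 ≤ (S j).card * (T j).card * (J ^ e) ^ 2 := by
      have e1 : (J ^ e) ^ 2 = J ^ (a + 1) * J ^ (b + 1) := by
        rw [← Real.rpow_natCast, ← Real.rpow_mul hJ.le, ← pow_add, ← Real.rpow_natCast]
        congr 1
        rw [he]
        push_cast
        ring
      rw [e1]
      have e2 : (Real.sqrt (κ * κ') / 4 * 2 ^ (j + j0)) ^ 2 =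
          (κ / 4 * 2 ^ (j + j0)) * (κ' / 4 * 2 ^ (j + j0)) := by
        rw [mul_pow, div_pow, Real.sq_sqrt (by positivity)]
        ring
      rw [e2]
      calc (κ / 4 * 2 ^ (j + j0)) * (κ' / 4 * 2 ^ (j + j0))
          ≤ ((S j).card * J ^ (a + 1)) * ((T j).card * J ^ (b + 1)) :=
            mul_le_mul (hSc j) (hTc j) (by positivity) (by positivity)
        _ = _ := by ring
    have h2 : Real.sqrt (κ * κ') / 4 * 2 ^ (j + j0) ≤ Real.sqrt ((S j).card * (T j).card) * J ^ e := by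
      have h3 := Real.sqrt_le_sqrt h1
      rwa [Real.sqrt_sq (by positivity), Real.sqrt_mul (by positivity) ((J ^ e) ^ 2),
        Real.sqrt_sq (by positivity)] at h3
    have hScp : (0 : ℝ) < (S j).card := by exact_mod_cast (hSne j).card_pos
    have hTcp : (0 : ℝ) < (T j).card := by exact_mod_cast (hTne j).card_pos
    have hg0 : 0 < Real.sqrt ((S j).card * (T j).card) := Real.sqrt_pos.2 (mul_pos hScp hTcp)
    rw [div_le_iff₀ (mul_pos (hδ0 j) hg0)]
    have h4 : δ j = J ^ (1 + ε / 2) * J ^ e / 2 ^ (j + j0) := by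
      simp only [hδ]
      rw [← Real.rpow_add hJ, ← hJdef]
      congr 2
      rw [hE]; ring
    rw [h4]
    have hpos1 : 0 < J ^ (1 + ε / 2) := Real.rpow_pos_of_pos hJ _
    have hpos2 : (0 : ℝ) < 2 ^ (j + j0) := by positivity
    have h5 : 64 / Real.sqrt (κ * κ') * (1 / J ^ (1 + ε / 2)) *
        (J ^ (1 + ε / 2) * J ^ e / 2 ^ (j + j0) * Real.sqrt ((S j).card * (T j).card)) =
        64 / (Real.sqrt (κ * κ') * 2 ^ (j + j0)) * (Real.sqrt ((S j).card * (T j).card) * J ^ e) := by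
      field_simp
    rw [h5]
    calc (16 : ℝ) = 64 / (Real.sqrt (κ * κ') * 2 ^ (j + j0)) * (Real.sqrt (κ * κ') / 4 * 2 ^ (j + j0)) := by
          field_simp
          norm_num
      _ ≤ _ := mul_le_mul_of_nonneg_left h2 (by positivity))
  filter_upwards [hae] with α hα
  obtain ⟨j1, hj1⟩ := eventually_atTop.1 hα
  -- absorbing the constants
  have hab : ∀ᶠ N : ℕ in atTop, 4 * (2 : ℝ) ^ E ≤ Real.log N ^ (ε / 2) :=
    ((tendsto_rpow_atTop (by positivity)).comp (Real.tendsto_log_atTop.comp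
      tendsto_natCast_atTop_atTop)).eventually_ge_atTop _
  filter_upwards [hab, eventually_ge_atTop (2 ^ (j1 + j0 + 1))] with N hN1 hN2
  intro β
  have hN0 : N ≠ 0 := by
    have : 0 < 2 ^ (j1 + j0 + 1) := by positivity
    omega
  set l : ℕ := Nat.log 2 N with hl
  have hl1 : 2 ^ l ≤ N := Nat.pow_log_le_self 2 hN0
  have hl2 : N < 2 ^ (l + 1) := Nat.lt_pow_succ_log_self (by norm_num) N
  have hl3 : j1 + j0 + 1 ≤ l := Nat.le_log_of_pow_le (by norm_num) hN2
  obtain ⟨j, hj⟩ : ∃ j, l = j + j0 + 1 := ⟨l - (j0 + 1), by omega⟩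
  obtain ⟨p, hp, p', hp', z, hz⟩ := hj1 j (by omega) β
  obtain ⟨h1, h2, h3⟩ := hS j p hp
  obtain ⟨h4, h5, h6⟩ := hT j p' hp'
  have hne : p ≠ p' := fun h => Finset.disjoint_left.1 (hdis j) hp (h ▸ hp')
  have hsum2 : p + p' = 2 * ((p + p') / 2) := by omega
  refine ⟨(p + p') / 2, ?_, ?_, z, ?_⟩
  · rw [← hsum2]
    have : 2 ^ l = 2 ^ (j + j0) + 2 ^ (j + j0) := by rw [hj, pow_succ]; ring
    omega
  · rw [← hsum2]
    exact rep_of h2 h5 rfl hne
  · have h7 : (2 : ℝ) * (((p + p') / 2 : ℕ) : ℝ) = (p : ℝ) + p' := by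
      have : ((2 * ((p + p') / 2) : ℕ) : ℝ) = ((p + p' : ℕ) : ℝ) := by rw [← hsum2]
      push_cast at this
      exact this
    rw [h7]
    refine hz.trans ?_
    have hNr : (0 : ℝ) < N := by exact_mod_cast Nat.pos_of_ne_zero hN0
    have hl4 : (1 : ℝ) ≤ l := by exact_mod_cast (by omega : 1 ≤ l)
    have hlogN : (l : ℝ) ≤ 2 * Real.log N := by
      have h8 : Real.log ((2 : ℝ) ^ l) ≤ Real.log N := Real.log_le_log (by positivity) (by exact_mod_cast hl1)
      rw [Real.log_pow] at h8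
      have h9 := Real.log_two_gt_d9
      nlinarith
    have hlogN0 : 0 < Real.log N := by linarith
    have hδl : δ j = (l : ℝ) ^ E * 2 / 2 ^ l := by
      simp only [hδ]
      rw [← hj]
      have : (2 : ℝ) ^ l = 2 ^ (j + j0) * 2 := by rw [hj, pow_succ]
      rw [this]
      field_simp
    rw [hδl]
    have h10 : (N : ℝ) ≤ 2 * 2 ^ l := by
      have : (N : ℝ) < 2 ^ (l + 1) := by exact_mod_cast hl2
      rw [pow_succ] at this
      linarith
    have h11 : (1 : ℝ) / 2 ^ l ≤ 2 / N := by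
      rw [div_le_div_iff₀ (by positivity) hNr]
      linarith
    calc (l : ℝ) ^ E * 2 / 2 ^ l = (l : ℝ) ^ E * 2 * (1 / 2 ^ l) := by ring
      _ ≤ (2 * Real.log N) ^ E * 2 * (2 / N) := by gcongr
      _ = (4 * (2 : ℝ) ^ E) * Real.log N ^ E / N := by
          rw [Real.mul_rpow (by norm_num) hlogN0.le]; ring
      _ ≤ Real.log N ^ (ε / 2) * Real.log N ^ E / N := by gcongr
      _ = _ := by
          rw [← Real.rpow_add hlogN0]
          congr 2
          rw [hE, he]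
          ring

end Pool.Agent.Results.MP_778b46_nt.MetricFractionalParts
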