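import Mathlib
import Pool.Agent.X28.SX.Iter

/-!
# Even numbers `N_1, …, N_r` with `N_i - p(p(⋯ p(u)))` prime for the same index `u`

For all types `(a_i, 0)` and almost all vectors of even numbers `N_i` between `X` and `2 X` (multiples of a small
primorial), `i < r`, there are at least `1 - ε` times the expected number of indices `u`, in any given dense set of
indices, for which `N_i` is the sum of the `u`-th `a_i`-prime and a prime, for all `i` at once.
-/

set_option autoImplicit false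

namespace Pool.Agent.Results.MP_778b46_nt.SameIndexAlmostAllMultiples

open Finset Filter

/-- the `k`-th prime, `p 1 = 2` -/
noncomputable def p (k : ℕ) : ℕ := Nat.nth Nat.Prime (k - 1)

/-- the `u`-th `i`-prime, `p` iterated `i + 1` times at `u` -/
noncomputable def iPrime (i u : ℕ) : ℕ := p^[i + 1] u

/-- the product of `1 - 1/q` over the primes `q ≤ y` -/
noncomputable def V (y : ℕ) : ℝ := ∏ q ∈ (Icc 1 y).filter Nat.Prime, (1 - 1 / (q : ℝ))

/-- the positive integers `u` for which the `u`-th `m`-prime is at most `X` -/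
noncomputable def U (m X : ℕ) : Finset ℕ := (Icc 1 X).filter (fun u => iPrime m u ≤ X)

open Classical in
/-- the `u ∈ J` for which, for all `i < r`, the number `N i` minus the `u`-th `a i`-prime is prime -/
noncomputable def Good {r : ℕ} (a N : Fin r → ℕ) (J : Finset ℕ) : Finset ℕ :=
  J.filter (fun u => ∀ i, (N i - iPrime (a i) u).Prime)

open Classical in
/-- the conclusion for the types `(a_i, 0)` and the set `J`: for all but at most `ε ∏ G_i` of the vectors `g` with
`g_i ∈ [1, G_i]`, with `N_i = M (g₀_i + g_i)`, all the numbers `N_i` minus the `u`-th `a_i`-prime are prime for at least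
`(1 - ε) #J / (V y log X) ^ r` elements `u` of `J`; `M` is the product of the primes up to `y` -/
def Sharp (X : ℕ) {r : ℕ} (a : Fin r → ℕ) (y : ℕ) (g₀ G : Fin r → ℕ) (ε : ℝ) (J : Finset ℕ) : Prop :=
  (((Fintype.piFinset (fun i : Fin r => Icc 1 (G i))).filter (fun g =>
    ((Good a (fun i => primorial y * (g₀ i + g i)) J).card : ℝ) <
      (1 - ε) * (J.card / (V y * Real.log X) ^ r))).card : ℝ) ≤ ε * ∏ i, (G i : ℝ)

/-- There is an absolute constant `c > 0` such that for all `r`, all types `(a_1, 0), …, (a_r, 0)` with `a_i ≤ m`, all `B`,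
`C` and `0 < ε ≤ 1` there is `K₀` such that for every `K₁` and every large `X`, every `y` between `K₀ log log X` and
`K₁ log log X`, with `M` the product of the primes `≤ y`, and all windows `(g₀_i, g₀_i + G_i]`, `i < r`, with `X ≤ M g₀_i`,
`M (g₀_i + G_i) ≤ 2 X`, `G_i ≥ X / (M log ^ C X)`:
(1) for every set `J` of at least `X / log ^ B X` positive integers `u` with the `u`-th `a_i`-prime at most `X` for all `i`,
for all but at most `ε ∏ G_i` of the vectors `g` with `g_i ∈ [1, G_i]`, all the even numbers `N_i = M (g₀_i + g_i)` are the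
sum of the `u`-th `a_i`-prime and a prime, for at least `(1 - ε) #J / (V y log X) ^ r` elements `u` of `J`;
(2) there are at least `c ^ (m + 1) X / log ^ (m + 1) X` positive integers `u` with the `u`-th `m`-prime at most `X`, and the
conclusion of (1) holds for the set of all of them. -/
theorem result : ∃ c : ℝ, 0 < c ∧ ∀ (r m B C : ℕ) (a : Fin r → ℕ), (∀ i, a i ≤ m) → ∀ ε : ℝ, 0 < ε → ε ≤ 1 →
    ∃ K₀ : ℕ, ∀ K₁ : ℕ, ∃ X₀ : ℕ, ∀ X : ℕ, X₀ ≤ X →
    ∀ y : ℕ, K₀ * Real.log (Real.log X) ≤ y → y ≤ K₁ * Real.log (Real.log X) →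
    ∀ g₀ G : Fin r → ℕ, (∀ i, X ≤ primorial y * g₀ i ∧ primorial y * (g₀ i + G i) ≤ 2 * X) →
    (∀ i, (X : ℝ) ≤ primorial y * G i * Real.log X ^ C) →
    (∀ J : Finset ℕ, (∀ u ∈ J, 1 ≤ u ∧ ∀ i, iPrime (a i) u ≤ X) → (X : ℝ) ≤ J.card * Real.log X ^ B →
      Sharp X a y g₀ G ε J) ∧
    c ^ (m + 1) * X / Real.log X ^ (m + 1) ≤ ((U m X).card : ℝ) ∧ Sharp X a y g₀ G ε (U m X) := by
  classical
  obtain ⟨c, hc, hlow⟩ := Pool.Agent.X28.SX.it_low
  refine ⟨c, hc, ?_⟩
  intro r m B C a ha ε hε hε1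
  obtain ⟨K₀, hK₀⟩ := Pool.Agent.X28.SX.stepSI (ι := Fin r) (fun _ => true) (fun _ => 1) (fun _ => Or.inl rfl)
    (max B (m + 2)) 0 C ε hε hε1
  refine ⟨K₀, fun K₁ => ?_⟩
  obtain ⟨n1, hn1⟩ := hK₀ K₁
  obtain ⟨n2, hn2⟩ := hlow m
  obtain ⟨n3, hn3⟩ := Pool.Agent.H373R2.T7.ev_L' (max 1 ((1 / c) ^ (m + 1)))
  refine ⟨max n1 (max n2 n3), fun X hX y hy1 hy2 g₀ G hg1 hg2 => ?_⟩
  have b1 : n1 ≤ X := (le_max_left _ _).trans hX
  have b2 : n2 ≤ X := ((le_max_left _ _).trans (le_max_right _ _)).trans hX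
  have b3 : n3 ≤ X := ((le_max_right _ _).trans (le_max_right _ _)).trans hX
  have hL1 : 1 ≤ Real.log X := (le_max_left _ _).trans (hn3 X b3)
  have hLc : (1 / c) ^ (m + 1) ≤ Real.log X := (le_max_right _ _).trans (hn3 X b3)
  have hip : ∀ i u : ℕ, iPrime i u = Pool.Agent.TH665.GP.ff^[i + 1] u := fun _ _ => rfl
  have hVz : Pool.Agent.H373R2.T7.Vz y = V y := rfl
  have main : ∀ J : Finset ℕ, (∀ u ∈ J, 1 ≤ u ∧ ∀ i, iPrime (a i) u ≤ X) →
      (X : ℝ) ≤ J.card * Real.log X ^ (max B (m + 2)) → Sharp X a y g₀ G ε J := by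
    intro J hJ hJc
    have h1 := hn1 X b1 y hy1 hy2 J hJc (fun i u => iPrime (a i) u) (fun i => by
      intro u hu v hv huv
      exact Pool.Agent.X28.SX.it_inj (a i + 1) (hJ u (mem_coe.1 hu)).1 (hJ v (mem_coe.1 hv)).1 huv)
      (fun i u hu => ⟨Pool.Agent.X28.SX.it_prime (a i) u, (hJ u hu).2 i⟩) g₀ G
      (fun i => ⟨by rw [pow_one]; exact (hg1 i).1, by rw [pow_one]; exact (hg1 i).2⟩)
      (fun i => by rw [pow_one]; exact hg2 i)
    simp only [prod_const, card_univ, Fintype.card_fin, hVz] at h1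
    unfold Sharp
    refine le_trans (le_of_eq ?_) h1
    congr 2
    apply filter_congr
    intro g _
    have e1 : V y * (((1 : ℕ) : ℝ) * Real.log X) = V y * Real.log X := by push_cast; ring
    rw [e1]
    simp only [pow_one]
    rfl
  have hlowX := hn2 X b2
  refine ⟨fun J hJ hJc => main J hJ (hJc.trans ?_), hlowX, main _ ?_ ?_⟩
  · exact mul_le_mul_of_nonneg_left (pow_le_pow_right₀ hL1 (le_max_left _ _)) (Nat.cast_nonneg _)
  · intro u hu
    unfold U at hu
    rw [mem_filter, mem_Icc] at hu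
    refine ⟨hu.1.1, fun i => le_trans ?_ hu.2⟩
    exact Pool.Agent.X28.SX.it_mono (Nat.succ_le_succ (ha i)) hu.1.1
  · have hL0 : 0 < Real.log X := by linarith
    have h2 : c ^ (m + 1) * X ≤ ((U m X).card : ℝ) * Real.log X ^ (m + 1) := by
      have := hlowX
      rwa [div_le_iff₀ (by positivity)] at this
    have hX0 : (0 : ℝ) ≤ X := Nat.cast_nonneg _
    have h3 : (X : ℝ) ≤ Real.log X * (c ^ (m + 1) * X) := by
      have h4 : (1 / c) ^ (m + 1) * c ^ (m + 1) = 1 := by
        rw [← mul_pow]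
        have : 1 / c * c = 1 := by field_simp
        rw [this, one_pow]
      have h5 : 1 ≤ Real.log X * c ^ (m + 1) := by
        rw [← h4]
        exact mul_le_mul_of_nonneg_right hLc (by positivity)
      nlinarith
    calc (X : ℝ) ≤ Real.log X * (c ^ (m + 1) * X) := h3
      _ ≤ Real.log X * (((U m X).card : ℝ) * Real.log X ^ (m + 1)) := mul_le_mul_of_nonneg_left h2 hL0.le
      _ = (U m X).card * Real.log X ^ (m + 2) := by ring
      _ ≤ (U m X).card * Real.log X ^ (max B (m + 2)) :=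
          mul_le_mul_of_nonneg_left (pow_le_pow_right₀ hL1 (le_max_right _ _)) (Nat.cast_nonneg _)

end Pool.Agent.Results.MP_778b46_nt.SameIndexAlmostAllMultiples
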